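import Pool.Agent.Lib.MP_df1788_co.Tower
import Pool.Agent.Lib.MP_df1788_co.Fin2

namespace Pool.Agent.Results.MP_df1788_co.PowerSaving

open scoped Classical in
theorem result : ∃ N : ℕ, ∀ n ≥ N, ∃ P₁ P₂ : Finset (EuclideanSpace ℝ (Fin 2)),
    P₁.card = n ∧ P₂.card = n ∧ (∀ p ∈ P₁, p 1 ^ 2 = p 0) ∧ (∀ q ∈ P₂, q 1 = 0) ∧
    (((P₁ ×ˢ P₂).image fun pq => dist pq.1 pq.2).card : ℝ) ≤ (n : ℝ) ^ (2 - 1 / 40 : ℝ) :=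
  Pool.Agent.Lib.MP_df1788_co.final2 Pool.Agent.Lib.MP_df1788_co.tower

end Pool.Agent.Results.MP_df1788_co.PowerSaving
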